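import Mathlib
import Pool.Agent.Helper13.P3.Psi

/-!
# PS4, K3: the pairs without a common cluster prime, `r ≤ s + 1`
-/

namespace Pool.Agent.Helper19.P3

open Finset Pool.Agent.Helper58.LT

theorem kd_smooth_div {κ u D : ℕ} (hu : u ≠ 0) (hs : ∀ p ∈ u.primeFactors, p ≤ 2 ^ κ)
    (hD : 1 ≤ D) : ∃ d, d ∣ u ∧ d ≤ D ∧ (d = u ∨ D < d * 2 ^ κ) := by
  classical
  have hne : (u.divisors.filter (fun d => d ≤ D)).Nonempty :=
    ⟨1, mem_filter.2 ⟨Nat.mem_divisors.2 ⟨one_dvd _, hu⟩, hD⟩⟩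
  obtain ⟨d, hd, hmax⟩ := exists_max_image _ (fun d => d) hne
  rw [mem_filter, Nat.mem_divisors] at hd
  obtain ⟨⟨hdu, -⟩, hdD⟩ := hd
  refine ⟨d, hdu, hdD, ?_⟩
  by_cases h : d = u
  · exact Or.inl h
  right
  obtain ⟨c, rfl⟩ := hdu
  have hc : c ≠ 1 := by
    rintro rfl
    exact h (mul_one d).symm
  obtain ⟨p, hp, b, rfl⟩ := Nat.exists_prime_and_dvd hc
  have hd0 : 0 < d := by
    rcases Nat.eq_zero_or_pos d with h0 | h0
    · rw [h0, zero_mul] at hu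
      exact absurd rfl hu
    · exact h0
  have hpu : p ≤ 2 ^ κ :=
    hs p (Nat.mem_primeFactors.2 ⟨hp, (dvd_mul_right p b).trans (dvd_mul_left _ d), hu⟩)
  have hdp : ¬ d * p ≤ D := by
    intro hcon
    have h1 := hmax (d * p) (mem_filter.2 ⟨Nat.mem_divisors.2 ⟨⟨b, by ring⟩, hu⟩, hcon⟩)
    have h2 := hp.two_le
    have h3 : d * 2 ≤ d * p := Nat.mul_le_mul_left d h2
    omega
  rw [not_le] at hdp
  exact hdp.trans_le (Nat.mul_le_mul_left d hpu)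

theorem kd_smooth_rough {a b P Q : ℕ} (ha : 0 < a) (haQ : a.Coprime Q) (hbP : b.Coprime P)
    (h : a * P = b * Q) : a = b ∧ P = Q := by
  have h1 : a ∣ b := haQ.dvd_of_dvd_mul_right (h ▸ dvd_mul_right a P)
  have h2 : b ∣ a := hbP.dvd_of_dvd_mul_right (h.symm ▸ dvd_mul_right b Q)
  have h3 := Nat.dvd_antisymm h1 h2
  subst h3
  exact ⟨rfl, Nat.eq_of_mul_eq_mul_left ha h⟩

theorem kd_prime {β κ p : ℕ} (hp : p ∈ PP β κ) : p.Prime := (mem_filter.1 hp).2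

theorem kd_le {β κ p : ℕ} (hp : p ∈ PP β κ) : p ≤ 2 ^ (β + κ) := (mem_Icc.1 (mem_filter.1 hp).1).2

theorem kd_ge {β κ p : ℕ} (hp : p ∈ PP β κ) : 2 ^ (β - κ) ≤ p := (mem_Icc.1 (mem_filter.1 hp).1).1

theorem kd_prod_le {β κ m : ℕ} {c : Fin m → ℕ} (hc : ∀ j, c j ∈ PP β κ) :
    ∏ j, c j ≤ 2 ^ (m * (β + κ)) := by
  calc ∏ j, c j ≤ ∏ _j : Fin m, 2 ^ (β + κ) := prod_le_prod' fun j _ => kd_le (hc j)
    _ = 2 ^ (m * (β + κ)) := by
      rw [prod_const, card_univ, Fintype.card_fin, ← pow_mul, mul_comm]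

theorem kd_cop {β κ m t : ℕ} (hκ : 2 * κ < β) (ht : ∀ p ∈ t.primeFactors, p ≤ 2 ^ κ) (ht0 : t ≠ 0)
    {c : Fin m → ℕ} (hc : ∀ j, c j ∈ PP β κ) : t.Coprime (∏ j, c j) := by
  apply Nat.Coprime.prod_right
  intro j _
  rw [Nat.coprime_comm, Nat.Prime.coprime_iff_not_dvd (kd_prime (hc j))]
  intro hd
  have h1 := ht _ (Nat.mem_primeFactors.2 ⟨kd_prime (hc j), hd, ht0⟩)
  have h2 := kd_ge (hc j)
  have h3 : 2 ^ κ < 2 ^ (β - κ) := Nat.pow_lt_pow_right (by norm_num) (by omega)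
  omega

/-- two solutions with the same fixed data -/
theorem kd_two {i κ β m E : ℕ} (hOk : Ok i β κ) (hκ : 2 * κ < β)
    (hE : E + (2 * m) * (β + κ) + κ + (β + 1) / 2 ≤ (i + 1) * β) {t t' : ℕ} (ht0 : t ≠ 0)
    (ht0' : t' ≠ 0) (ht : ∀ p ∈ t.primeFactors, p ≤ 2 ^ κ) (ht' : ∀ p ∈ t'.primeFactors, p ≤ 2 ^ κ)
    (htE : t ≤ 2 ^ E) (htE' : t' ≤ 2 ^ E) {c c' e e' : Fin m → ℕ} (hc : ∀ j, c j ∈ PP β κ)
    (hc' : ∀ j, c' j ∈ PP β κ) (he : ∀ j, e j ∈ PP β κ) (he' : ∀ j, e' j ∈ PP β κ)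
    (hd : ∀ j j', c j ≠ c' j')
    (h : psiS (2 ^ ((2 * i + 1) * β)) t + (∑ j, psiS (2 ^ ((2 * i + 1) * β)) (c j) +
      ∑ j, psiS (2 ^ ((2 * i + 1) * β)) (e' j)) =
      psiS (2 ^ ((2 * i + 1) * β)) t' + (∑ j, psiS (2 ^ ((2 * i + 1) * β)) (e j) +
      ∑ j, psiS (2 ^ ((2 * i + 1) * β)) (c' j))) :
    t = t' ∧ (∀ j, c j ∈ univ.image e) ∧ (∀ j, c' j ∈ univ.image e') := by
  have pc : ∀ {c : Fin m → ℕ}, (∀ j, c j ∈ PP β κ) → ∀ j, c j ≠ 0 :=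
    fun hc j => (kd_prime (hc j)).ne_zero
  have hp0 : ∀ {c : Fin m → ℕ}, (∀ j, c j ∈ PP β κ) → ∏ j, c j ≠ 0 :=
    fun hc => prod_ne_zero_iff.2 fun j _ => pc hc j
  have hA : ∀ {t : ℕ} {c e' : Fin m → ℕ}, t ≤ 2 ^ E → (∀ j, c j ∈ PP β κ) → (∀ j, e' j ∈ PP β κ) →
      t * ((∏ j, c j) * ∏ j, e' j) ≤ 2 ^ (E + (2 * m) * (β + κ)) := by
    intro t c e' h1 h2 h3
    calc t * ((∏ j, c j) * ∏ j, e' j) ≤ 2 ^ E * (2 ^ (m * (β + κ)) * 2 ^ (m * (β + κ))) :=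
          Nat.mul_le_mul h1 (Nat.mul_le_mul (kd_prod_le h2) (kd_prod_le h3))
      _ = 2 ^ (E + (2 * m) * (β + κ)) := by
        rw [← pow_add, ← pow_add]
        congr 1
        ring
  have ha := hA htE hc he'
  have hb := hA htE' he hc'
  have ha0 : t * ((∏ j, c j) * ∏ j, e' j) ≠ 0 :=
    Nat.mul_ne_zero ht0 (Nat.mul_ne_zero (hp0 hc) (hp0 he'))
  have hb0 : t' * ((∏ j, e j) * ∏ j, c' j) ≠ 0 :=
    Nat.mul_ne_zero ht0' (Nat.mul_ne_zero (hp0 he) (hp0 hc'))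
  have hκ1 := hOk.one
  have hbig : 2 * (E + (2 * m) * (β + κ)) + κ < (2 * i + 1) * β := by
    have h1 : (2 * i + 1) * β + β = 2 * ((i + 1) * β) := by ring
    generalize (2 * m) * (β + κ) = Y at hE ⊢
    generalize (i + 1) * β = Z at hE h1
    omega
  have hsmall : E + (2 * m) * (β + κ) ≤ 2 ^ κ := by
    have h1 := hOk.po
    have h2 : (i + 1) * β ≤ (8 * i + 16) * β := Nat.mul_le_mul_right β (by omega)
    omega
  have heq : t * ((∏ j, c j) * ∏ j, e' j) = t' * ((∏ j, e j) * ∏ j, c' j) := by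
    apply spacingS (N := 2 ^ ((2 * i + 1) * β)) (D := 0) ha0 hb0 (length_le ha0 ha)
      (length_le hb0 hb)
    · rw [psiS_mul ht0 (Nat.mul_ne_zero (hp0 hc) (hp0 he')), psiS_mul (hp0 hc) (hp0 he'),
        psiS_mul ht0' (Nat.mul_ne_zero (hp0 he) (hp0 hc')), psiS_mul (hp0 he) (hp0 hc'),
        psiS_prod _ (pc hc), psiS_prod _ (pc he'), psiS_prod _ (pc he), psiS_prod _ (pc hc'), h]
      simp
    · rw [zero_add]
      calc (E + (2 * m) * (β + κ)) *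
            (t * ((∏ j, c j) * ∏ j, e' j) * (t' * ((∏ j, e j) * ∏ j, c' j)))
          ≤ 2 ^ κ * (2 ^ (E + (2 * m) * (β + κ)) * 2 ^ (E + (2 * m) * (β + κ))) :=
            Nat.mul_le_mul hsmall (Nat.mul_le_mul ha hb)
        _ = 2 ^ (2 * (E + (2 * m) * (β + κ)) + κ) := by
            rw [← pow_add, ← pow_add]
            congr 1
            ring
        _ < 2 ^ ((2 * i + 1) * β) := Nat.pow_lt_pow_right (by norm_num) hbig
  have h1 := kd_smooth_rough (Nat.pos_of_ne_zero ht0)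
    (Nat.Coprime.mul_right (kd_cop hκ ht ht0 he) (kd_cop hκ ht ht0 hc'))
    (Nat.Coprime.mul_right (kd_cop hκ ht' ht0' hc) (kd_cop hκ ht' ht0' he')) heq
  obtain ⟨h1, h2⟩ := h1
  refine ⟨h1, ?_, ?_⟩
  · intro j
    have h3 : c j ∣ (∏ j, e j) * ∏ j, c' j := by
      rw [← h2]
      exact (dvd_prod_of_mem c (mem_univ j)).trans (dvd_mul_right _ _)
    have hpj := kd_prime (hc j)
    rcases (Nat.Prime.dvd_mul hpj).1 h3 with h4 | h4
    · rw [hpj.prime.dvd_finsetProd_iff] at h4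
      obtain ⟨j', _, h5⟩ := h4
      rw [mem_image]
      exact ⟨j', mem_univ _, ((Nat.prime_dvd_prime_iff_eq hpj (kd_prime (he j'))).1 h5).symm⟩
    · rw [hpj.prime.dvd_finsetProd_iff] at h4
      obtain ⟨j', _, h5⟩ := h4
      exact absurd ((Nat.prime_dvd_prime_iff_eq hpj (kd_prime (hc' j'))).1 h5) (hd j j')
  · intro j
    have h3 : c' j ∣ (∏ j, c j) * ∏ j, e' j := by
      rw [h2]
      exact (dvd_prod_of_mem c' (mem_univ j)).trans (dvd_mul_left _ _)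
    have hpj := kd_prime (hc' j)
    rcases (Nat.Prime.dvd_mul hpj).1 h3 with h4 | h4
    · rw [hpj.prime.dvd_finsetProd_iff] at h4
      obtain ⟨j', _, h5⟩ := h4
      exact absurd ((Nat.prime_dvd_prime_iff_eq hpj (kd_prime (hc j'))).1 h5).symm (hd j' j)
    · rw [hpj.prime.dvd_finsetProd_iff] at h4
      obtain ⟨j', _, h5⟩ := h4
      rw [mem_image]
      exact ⟨j', mem_univ _, ((Nat.prime_dvd_prime_iff_eq hpj (kd_prime (he' j'))).1 h5).symm⟩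

end Pool.Agent.Helper19.P3
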