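import Mathlib
import Pool.Agent.Helper33.P3.Disj

/-!
# PS4, T1_low: the count for a given set of quadruples
-/

namespace Pool.Agent.Helper19.P3

open Finset Pool.Agent.Helper58.LT

theorem kd_psi {N m t x y : ℕ} (ht : t ≠ 0) (hx : x ≠ 0) (hy : y ≠ 0) {c : Fin m → ℕ}
    (hc : ∀ j, c j ≠ 0) : psiS N (t * (x * (y * ∏ j, c j))) =
      psiS N t + (psiS N x + (psiS N y + ∑ j, psiS N (c j))) := by
  have hp : ∏ j, c j ≠ 0 := prod_ne_zero_iff.2 fun j _ => hc j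
  rw [psiS_mul ht (Nat.mul_ne_zero hx (Nat.mul_ne_zero hy hp)), psiS_mul hx (Nat.mul_ne_zero hy hp),
    psiS_mul hy hp, psiS_prod _ hc]

theorem kd_mem_Sm {κ M t : ℕ} (h : t ∈ Sm κ M) : t ≠ 0 ∧ t ≤ 2 ^ M ∧ Squarefree t ∧
    ∀ p ∈ t.primeFactors, p ≤ 2 ^ κ := by
  unfold Sm at h
  rw [mem_filter, mem_Icc] at h
  exact ⟨by omega, h.1.2, h.2.1, h.2.2⟩

theorem low_core {i r s c₀ : ℕ} (hsr : s + r = i + 1) (hr : 2 ≤ r) (hrs : r ≤ s + 1) {β κ : ℕ}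
    (hOk : Ok i β κ) (hκ : (4 * r) * κ ≤ β) {Λ X : Finset ℕ}
    (hΛ : Λ ⊆ Sm κ (s * β + c₀ * κ)) (hX : ∀ x ∈ X, x ≠ 0) (Pr : Finset ((ℕ × ℕ) × (ℕ × ℕ)))
    (hPr : ∀ z ∈ (Λ ×ˢ X ×ˢ X ×ˢ tup (PP β κ) (r - 1)) ×ˢ (Λ ×ˢ X ×ˢ X ×ˢ tup (PP β κ) (r - 1)),
      psiS (2 ^ ((2 * i + 1) * β)) (z.1.1 * (z.1.2.1 * (z.1.2.2.1 * ∏ j, z.1.2.2.2 j))) =
      psiS (2 ^ ((2 * i + 1) * β)) (z.2.1 * (z.2.2.1 * (z.2.2.2.1 * ∏ j, z.2.2.2.2 j))) →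
      ((z.1.2.1, z.1.2.2.1), (z.2.2.1, z.2.2.2.1)) ∈ Pr) :
    #{z ∈ (Λ ×ˢ X ×ˢ X ×ˢ tup (PP β κ) (r - 1)) ×ˢ (Λ ×ˢ X ×ˢ X ×ˢ tup (PP β κ) (r - 1)) |
      psiS (2 ^ ((2 * i + 1) * β)) (z.1.1 * (z.1.2.1 * (z.1.2.2.1 * ∏ j, z.1.2.2.2 j))) =
      psiS (2 ^ ((2 * i + 1) * β)) (z.2.1 * (z.2.2.1 * (z.2.2.2.1 * ∏ j, z.2.2.2.2 j))) ∧
      ∀ j k, z.1.2.2.2 j ≠ z.2.2.2.2 k} ≤ ((r - 1) ^ (r - 1) * (r - 1) ^ (r - 1)) *
      (#Pr * (#Λ * 2 ^ ((r - 2) * β + (β + 1) / 2 + (c₀ + 2 * r) * κ))) := by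
  classical
  obtain ⟨a, rfl⟩ : ∃ a, r = a + 2 := ⟨r - 2, by omega⟩
  obtain ⟨b, rfl⟩ : ∃ b, s = a + 1 + b := ⟨s - a - 1, by omega⟩
  obtain rfl : i = 2 * a + b + 2 := by omega
  have hm : a + 2 - 1 = a + 1 := rfl
  have hm2 : a + 2 - 2 = a := rfl
  rw [hm2]
  set D := 2 ^ (a * β + (β + 1) / 2 + (c₀ + 2 * (a + 2)) * κ) with hD
  have hκ1 := hOk.one
  -- the exponent `E`
  have hκβ : 4 * (a * κ) + 8 * κ ≤ β := by
    have : (4 * (a + 2)) * κ = 4 * (a * κ) + 8 * κ := by ring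
    omega
  obtain ⟨E, hE⟩ : ∃ E, E + (β + 1) / 2 + (2 * (a * κ) + 3 * κ) = b * β + β :=
    ⟨b * β + β - (β + 1) / 2 - (2 * (a * κ) + 3 * κ), by omega⟩
  have hE2 : E + (2 * (a + 1)) * (β + κ) + κ + (β + 1) / 2 ≤ (2 * a + b + 2 + 1) * β := by
    have e1 : (2 * (a + 1)) * (β + κ) = 2 * (a * β) + 2 * β + 2 * (a * κ) + 2 * κ := by ring
    have e2 : (2 * a + b + 2 + 1) * β = 2 * (a * β) + b * β + 3 * β := by ring
    rw [e1, e2]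
    omega
  -- the divisor
  have hdd : ∀ t : ℕ, ∃ d, (t ∈ Λ → d ∣ t ∧ d ≤ D ∧ (d = t ∨ D < d * 2 ^ κ)) := by
    intro t
    by_cases ht : t ∈ Λ
    · obtain ⟨h1, -, -, h4⟩ := kd_mem_Sm (hΛ ht)
      obtain ⟨d, hd⟩ := kd_smooth_div h1 h4 (show 1 ≤ D from Nat.one_le_two_pow)
      exact ⟨d, fun _ => hd⟩
    · exact ⟨0, fun h => absurd h ht⟩
  choose dd hdd using hdd
  have hquot : ∀ t ∈ Λ, ∀ t₁, t = dd t * t₁ → t₁ ≠ 0 ∧ t₁ ≤ 2 ^ E ∧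
      ∀ p ∈ t₁.primeFactors, p ≤ 2 ^ κ := by
    intro t ht t₁ h
    obtain ⟨h1, h2, -, h4⟩ := kd_mem_Sm (hΛ ht)
    obtain ⟨g1, g2, g3⟩ := hdd t ht
    have ht10 : t₁ ≠ 0 := by
      rintro rfl
      rw [mul_zero] at h
      exact h1 h
    have hd0 : dd t ≠ 0 := by
      intro h0
      rw [h0, zero_mul] at h
      exact h1 h
    refine ⟨ht10, ?_, ?_⟩
    · rcases g3 with g3 | g3
      · have : t₁ = 1 := by
          rw [g3] at h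
          have h5 : t * 1 = t * t₁ := by rw [mul_one]; exact h
          exact (Nat.eq_of_mul_eq_mul_left (Nat.pos_of_ne_zero h1) h5).symm
        rw [this]
        exact Nat.one_le_two_pow
      · have h5 : t₁ * D < 2 ^ E * D := by
          calc t₁ * D < t₁ * (dd t * 2 ^ κ) :=
                Nat.mul_lt_mul_of_pos_left g3 (Nat.pos_of_ne_zero ht10)
            _ = t * 2 ^ κ := by
                conv_rhs => rw [h]
                ring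
            _ ≤ 2 ^ ((a + 1 + b) * β + c₀ * κ) * 2 ^ κ := Nat.mul_le_mul_right _ h2
            _ = 2 ^ E * D := by
                rw [hD, ← pow_add, ← pow_add]
                congr 1
                have e1 : (a + 1 + b) * β = a * β + β + b * β := by ring
                have e2 : (c₀ + 2 * (a + 2)) * κ = c₀ * κ + 2 * (a * κ) + 4 * κ := by ring
                rw [e1, e2]
                omega
        exact (Nat.lt_of_mul_lt_mul_right h5).le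
    · intro p hp
      exact h4 p (Nat.primeFactors_mono ⟨dd t, by rw [mul_comm]; exact h⟩ h1 hp)
  set T := Λ ×ˢ X ×ˢ X ×ˢ tup (PP β κ) (a + 2 - 1) with hT
  set N := 2 ^ ((2 * (2 * a + b + 2) + 1) * β) with hN
  have facts : ∀ z ∈ T, z.1 ∈ Λ ∧ z.2.1 ∈ X ∧ z.2.2.1 ∈ X ∧ ∀ j, z.2.2.2 j ∈ PP β κ := by
    intro z hz
    obtain ⟨h1, h2⟩ := mem_product.1 hz
    obtain ⟨h2, h3⟩ := mem_product.1 h2
    obtain ⟨h3, h4⟩ := mem_product.1 h3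
    exact ⟨h1, h2, h3, mem_tup.1 h4⟩
  set S := {z ∈ T ×ˢ T | psiS N (z.1.1 * (z.1.2.1 * (z.1.2.2.1 * ∏ j, z.1.2.2.2 j))) =
      psiS N (z.2.1 * (z.2.2.1 * (z.2.2.2.1 * ∏ j, z.2.2.2.2 j))) ∧
      ∀ j k, z.1.2.2.2 j ≠ z.2.2.2.2 k} with hS
  set key : (ℕ × ℕ × ℕ × (Fin (a + 2 - 1) → ℕ)) × (ℕ × ℕ × ℕ × (Fin (a + 2 - 1) → ℕ)) →
      ((ℕ × ℕ) × (ℕ × ℕ)) × ℕ × ℕ := fun z =>
    (((z.1.2.1, z.1.2.2.1), (z.2.2.1, z.2.2.2.1)), z.2.1, dd z.1.1) with hkey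
  have hmaps : ∀ z ∈ S, key z ∈ Pr ×ˢ Λ ×ˢ Icc 1 D := by
    intro z hz
    rw [hS, mem_filter] at hz
    obtain ⟨f1, -, -, -⟩ := facts _ (mem_product.1 hz.1).1
    obtain ⟨f1', -, -, -⟩ := facts _ (mem_product.1 hz.1).2
    obtain ⟨g1, g2, -⟩ := hdd _ f1
    rw [hkey]
    refine mem_product.2 ⟨hPr z hz.1 hz.2.1, mem_product.2 ⟨f1', mem_Icc.2 ⟨?_, g2⟩⟩⟩
    exact Nat.pos_of_dvd_of_pos g1 (Nat.pos_of_ne_zero (kd_mem_Sm (hΛ f1)).1)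
  have hfib : ∀ v ∈ Pr ×ˢ Λ ×ˢ Icc 1 D, #{z ∈ S | key z = v} ≤
      (a + 2 - 1) ^ (a + 2 - 1) * (a + 2 - 1) ^ (a + 2 - 1) := by
    intro v _
    rcases ({z ∈ S | key z = v}).eq_empty_or_nonempty with he | ⟨z₀, hz₀⟩
    · rw [he, card_empty]
      exact Nat.zero_le _
    rw [mem_filter] at hz₀
    obtain ⟨hz₀, hv₀⟩ := hz₀
    have main : ∀ z ∈ S, key z = v → z.1.1 = z₀.1.1 ∧ z.2.1 = z₀.2.1 ∧
        (z.1.2.1 = z₀.1.2.1 ∧ z.1.2.2.1 = z₀.1.2.2.1 ∧ z.2.2.1 = z₀.2.2.1 ∧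
          z.2.2.2.1 = z₀.2.2.2.1) ∧ (∀ j, z.1.2.2.2 j ∈ univ.image z₀.1.2.2.2) ∧
        (∀ j, z.2.2.2.2 j ∈ univ.image z₀.2.2.2.2) := by
      intro z hz hzv
      have hkk := hzv.trans hv₀.symm
      rw [hkey] at hkk
      simp only [Prod.mk.injEq] at hkk
      obtain ⟨⟨⟨k1, k2⟩, k3, k4⟩, k5, k6⟩ := hkk
      rw [hS, mem_filter] at hz hz₀
      obtain ⟨hz, hF, hdj⟩ := hz
      obtain ⟨hz0, hF0, -⟩ := hz₀
      obtain ⟨f1, f2, f3, f4⟩ := facts _ (mem_product.1 hz).1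
      obtain ⟨f1', f2', f3', f4'⟩ := facts _ (mem_product.1 hz).2
      obtain ⟨g1, g2, g3, g4⟩ := facts _ (mem_product.1 hz0).1
      obtain ⟨g1', g2', g3', g4'⟩ := facts _ (mem_product.1 hz0).2
      obtain ⟨t₁, ht₁⟩ := (hdd _ f1).1
      obtain ⟨t₂, ht₂⟩ := (hdd _ g1).1
      obtain ⟨q1, q2, q3⟩ := hquot _ f1 _ ht₁
      obtain ⟨q1', q2', q3'⟩ := hquot _ g1 _ ht₂
      have hd0 : dd z.1.1 ≠ 0 := by
        intro h0
        rw [h0, zero_mul] at ht₁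
        exact (kd_mem_Sm (hΛ f1)).1 ht₁
      have hd0' : dd z₀.1.1 ≠ 0 := k6 ▸ hd0
      have pn : ∀ {c : Fin (a + 2 - 1) → ℕ}, (∀ j, c j ∈ PP β κ) → ∀ j, c j ≠ 0 :=
        fun hc j => (kd_prime (hc j)).ne_zero
      rw [kd_psi (kd_mem_Sm (hΛ f1)).1 (hX _ f2) (hX _ f3) (pn f4),
        kd_psi (kd_mem_Sm (hΛ f1')).1 (hX _ f2') (hX _ f3') (pn f4')] at hF
      rw [kd_psi (kd_mem_Sm (hΛ g1)).1 (hX _ g2) (hX _ g3) (pn g4),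
        kd_psi (kd_mem_Sm (hΛ g1')).1 (hX _ g2') (hX _ g3') (pn g4')] at hF0
      rw [ht₁, psiS_mul hd0 q1] at hF
      rw [ht₂, psiS_mul hd0' q1', ← k1, ← k2, ← k3, ← k4, ← k5, ← k6] at hF0
      have h2 := kd_two (m := a + 2 - 1) hOk (by omega) hE2 q1 q1' q3 q3' q2 q2' f4 f4' g4 g4' hdj
        (by linarith)
      obtain ⟨r1, r2, r3⟩ := h2
      refine ⟨?_, k5, ⟨k1, k2, k3, k4⟩, r2, r3⟩
      rw [ht₁, ht₂, ← k6, r1]
    have hinj : #{z ∈ S | key z = v} ≤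
        #(tup (univ.image z₀.1.2.2.2) (a + 2 - 1) ×ˢ tup (univ.image z₀.2.2.2.2) (a + 2 - 1)) := by
      refine card_le_card_of_injOn (fun z => (z.1.2.2.2, z.2.2.2.2)) ?_ ?_
      · intro z hz
        rw [mem_coe, mem_filter] at hz
        obtain ⟨-, -, -, h5, h6⟩ := main z hz.1 hz.2
        rw [mem_coe, mem_product, mem_tup, mem_tup]
        exact ⟨h5, h6⟩
      · intro z hz z' hz' heq
        rw [mem_coe, mem_filter] at hz hz'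
        obtain ⟨h1, h2, ⟨h3, h4, h5, h6⟩, -, -⟩ := main z hz.1 hz.2
        obtain ⟨h1', h2', ⟨h3', h4', h5', h6'⟩, -, -⟩ := main z' hz'.1 hz'.2
        simp only [Prod.mk.injEq] at heq
        exact Prod.ext
          (Prod.ext (h1.trans h1'.symm) (Prod.ext (h3.trans h3'.symm)
            (Prod.ext (h4.trans h4'.symm) heq.1)))
          (Prod.ext (h2.trans h2'.symm) (Prod.ext (h5.trans h5'.symm)
            (Prod.ext (h6.trans h6'.symm) heq.2)))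
    refine hinj.trans ?_
    rw [card_product, card_tup, card_tup]
    have hc : ∀ p : Fin (a + 2 - 1) → ℕ, #(univ.image p) ≤ a + 2 - 1 := by
      intro p
      calc #(univ.image p) ≤ #(univ : Finset (Fin (a + 2 - 1))) := card_image_le
        _ = a + 2 - 1 := by simp
    exact Nat.mul_le_mul (Nat.pow_le_pow_left (hc _) _) (Nat.pow_le_pow_left (hc _) _)
  have hfin := card_le_mul_card_image_of_maps_to hmaps _ hfib
  refine hfin.trans (le_of_eq ?_)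
  rw [card_product, card_product, Nat.card_Icc]
  rfl

end Pool.Agent.Helper19.P3
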