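import Mathlib
import Pool.Agent.Helper33.P3.LowCore

/-!
# PS4, T1_low from the count of quadruples
-/

namespace Pool.Agent.Helper19.P3

open Finset Pool.Agent.Helper58.LT

theorem kd_psi_PP {i β κ p : ℕ} (hκ : κ < β) (hp : p ∈ PP β κ) :
    psiS (2 ^ ((2 * i + 1) * β)) p ≤ 2 ^ (2 * i * β + 1 + κ) := by
  have hpp := kd_prime hp
  have h1 := psiS_le (2 ^ ((2 * i + 1) * β)) p
  rw [lamS_sqfree hpp.squarefree, lam_prime hpp] at h1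
  have h2 : (2 : ℝ) ≤ p := by exact_mod_cast hpp.two_le
  have h3 : Real.log ((p : ℝ) / ((p : ℝ) - 1)) ≤ 2 / p := by
    have h4 : 0 < (p : ℝ) / (p - 1) := div_pos (by linarith) (by linarith)
    have h5 := Real.log_le_sub_one_of_pos h4
    have h6 : (p : ℝ) / (p - 1) - 1 ≤ 2 / p := by
      rw [div_sub_one (by linarith), div_le_div_iff₀ (by linarith) (by linarith)]
      nlinarith
    linarith
  have h4 : ((2 : ℝ) ^ (β - κ)) ≤ p := by exact_mod_cast kd_ge hp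
  have h5 : (2 : ℝ) / p ≤ 2 / 2 ^ (β - κ) :=
    div_le_div_of_nonneg_left (by norm_num) (by positivity) h4
  have h6 : ((2 ^ ((2 * i + 1) * β) : ℕ) : ℝ) * (2 / 2 ^ (β - κ)) = 2 ^ (2 * i * β + 1 + κ) := by
    push_cast
    rw [mul_div_assoc', div_eq_iff (by positivity), ← pow_succ, ← pow_add]
    congr 1
    have : (2 * i + 1) * β = 2 * i * β + β := by ring
    omega
  have h7 : (psiS (2 ^ ((2 * i + 1) * β)) p : ℝ) ≤ 2 ^ (2 * i * β + 1 + κ) := by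
    refine h1.trans ?_
    rw [← h6]
    exact mul_le_mul_of_nonneg_left (h3.trans h5) (Nat.cast_nonneg _)
  exact_mod_cast h7

theorem kd_sum_PP {i β κ m : ℕ} (hκ : κ < β) {c : Fin m → ℕ} (hc : ∀ j, c j ∈ PP β κ) :
    0 ≤ ∑ j, psiS (2 ^ ((2 * i + 1) * β)) (c j) ∧
      ∑ j, psiS (2 ^ ((2 * i + 1) * β)) (c j) ≤ m * 2 ^ (2 * i * β + 1 + κ) := by
  constructor
  · exact sum_nonneg fun j _ => psiS_nonneg _ _
  · calc ∑ j, psiS (2 ^ ((2 * i + 1) * β)) (c j) ≤ ∑ _j : Fin m, (2 : ℤ) ^ (2 * i * β + 1 + κ) :=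
          sum_le_sum fun j _ => kd_psi_PP hκ (hc j)
      _ = m * 2 ^ (2 * i * β + 1 + κ) := by
        rw [sum_const, card_univ, Fintype.card_fin, nsmul_eq_mul]

theorem kd_window_num {i β κ r c₀ : ℕ} (hκ : 1 ≤ κ) :
    2 * 2 ^ (2 * i * β + c₀ * κ) + (r - 1) * 2 ^ (2 * i * β + 1 + κ) ≤
      2 ^ (2 * i * β + (c₀ + r + 3) * κ) := by
  have h1 : 2 * 2 ^ (2 * i * β + c₀ * κ) ≤ 2 ^ (2 * i * β + (c₀ + r + 2) * κ) := by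
    calc 2 * 2 ^ (2 * i * β + c₀ * κ) = 2 ^ (2 * i * β + c₀ * κ + 1) := by rw [pow_succ, mul_comm]
      _ ≤ 2 ^ (2 * i * β + (c₀ + r + 2) * κ) := by
        apply Nat.pow_le_pow_right (by norm_num)
        have : (c₀ + r + 2) * κ = c₀ * κ + r * κ + 2 * κ := by ring
        rw [this]
        omega
  have h2 : (r - 1) * 2 ^ (2 * i * β + 1 + κ) ≤ 2 ^ (2 * i * β + (c₀ + r + 2) * κ) := by
    calc (r - 1) * 2 ^ (2 * i * β + 1 + κ) ≤ 2 ^ r * 2 ^ (2 * i * β + 1 + κ) :=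
          Nat.mul_le_mul_right _ ((Nat.sub_le r 1).trans Nat.lt_two_pow_self.le)
      _ = 2 ^ (r + (2 * i * β + 1 + κ)) := by rw [← pow_add]
      _ ≤ 2 ^ (2 * i * β + (c₀ + r + 2) * κ) := by
        apply Nat.pow_le_pow_right (by norm_num)
        have h3 : (c₀ + r + 2) * κ = c₀ * κ + r * κ + 2 * κ := by ring
        have h4 : r * 1 ≤ r * κ := Nat.mul_le_mul_left r hκ
        rw [h3]
        omega
  calc _ ≤ 2 ^ (2 * i * β + (c₀ + r + 2) * κ) + 2 ^ (2 * i * β + (c₀ + r + 2) * κ) :=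
        Nat.add_le_add h1 h2
    _ = 2 ^ (2 * i * β + (c₀ + r + 2) * κ + 1) := by rw [pow_succ, mul_two]
    _ ≤ _ := by
      apply Nat.pow_le_pow_right (by norm_num)
      have h3 : (c₀ + r + 3) * κ = (c₀ + r + 2) * κ + κ := by ring
      rw [h3]
      omega

/-- the quadruple of a pair of solutions is close -/
theorem kd_close {i β κ r c₀ : ℕ} (hκ : 1 ≤ κ) (hκβ : κ < β) {a₀ : ℤ} {m : ℕ} (hm : m = r - 1)
    {t t' x y x' y' : ℕ} {c c' : Fin m → ℕ} (ht : t ≠ 0) (ht' : t' ≠ 0) (hx : x ≠ 0) (hy : y ≠ 0)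
    (hx' : x' ≠ 0) (hy' : y' ≠ 0) (hc : ∀ j, c j ∈ PP β κ) (hc' : ∀ j, c' j ∈ PP β κ)
    (hw : |psiS (2 ^ ((2 * i + 1) * β)) t - a₀| ≤ 2 ^ (2 * i * β + c₀ * κ))
    (hw' : |psiS (2 ^ ((2 * i + 1) * β)) t' - a₀| ≤ 2 ^ (2 * i * β + c₀ * κ))
    (h : psiS (2 ^ ((2 * i + 1) * β)) (t * (x * (y * ∏ j, c j))) =
      psiS (2 ^ ((2 * i + 1) * β)) (t' * (x' * (y' * ∏ j, c' j)))) :
    |(psiS (2 ^ ((2 * i + 1) * β)) x + psiS (2 ^ ((2 * i + 1) * β)) y) -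
      (psiS (2 ^ ((2 * i + 1) * β)) x' + psiS (2 ^ ((2 * i + 1) * β)) y')| ≤
      2 ^ (2 * i * β + (c₀ + r + 3) * κ) := by
  have pn : ∀ {c : Fin m → ℕ}, (∀ j, c j ∈ PP β κ) → ∀ j, c j ≠ 0 :=
    fun hc j => (kd_prime (hc j)).ne_zero
  rw [kd_psi ht hx hy (pn hc), kd_psi ht' hx' hy' (pn hc')] at h
  obtain ⟨s1, s2⟩ := kd_sum_PP (i := i) hκβ hc
  obtain ⟨s1', s2'⟩ := kd_sum_PP (i := i) hκβ hc'
  have hnum : (2 : ℤ) * 2 ^ (2 * i * β + c₀ * κ) + (m : ℤ) * 2 ^ (2 * i * β + 1 + κ) ≤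
      2 ^ (2 * i * β + (c₀ + r + 3) * κ) := by
    have h1 := kd_window_num (i := i) (β := β) (r := r) (c₀ := c₀) hκ
    rw [← hm] at h1
    exact_mod_cast h1
  rw [abs_le] at hw hw' ⊢
  constructor
  · linarith [hw.1, hw.2, hw'.1, hw'.2]
  · linarith [hw.1, hw.2, hw'.1, hw'.2]

theorem T1_low_of (i r s c₀ Cq : ℕ) (hsr : s + r = i + 1) (hr : 2 ≤ r) (hs : 2 ≤ s)
    (hrs : r ≤ s + 1)
    (hq : ∀ β κ : ℕ, Ok i β κ → Cq * κ ≤ β →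
      ∀ X : Finset ℕ, X ⊆ Sm κ (β / 2 + (c₀ + r + 3) * κ) →
      #{z ∈ (X ×ˢ X) ×ˢ (X ×ˢ X) | |(psiS (2 ^ ((2 * i + 1) * β)) z.1.1 +
        psiS (2 ^ ((2 * i + 1) * β)) z.1.2) - (psiS (2 ^ ((2 * i + 1) * β)) z.2.1 +
        psiS (2 ^ ((2 * i + 1) * β)) z.2.2)| ≤ 2 ^ (2 * i * β + (c₀ + r + 3) * κ)} ≤
      2 ^ (β + (β + 1) / 2 + Cq * κ)) :
    ∃ C : ℕ, ∀ β κ : ℕ, Ok i β κ → C * κ ≤ β → ∀ Λ X : Finset ℕ,
      Λ ⊆ Sm κ (s * β + c₀ * κ) → X ⊆ Sm κ (β / 2 + c₀ * κ) →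
      #Λ ≤ 2 ^ ((s - 1) * β + (β + 1) / 2 + c₀ * κ) → ∀ a₀ : ℤ,
      (∀ t ∈ Λ, |psiS (2 ^ ((2 * i + 1) * β)) t - a₀| ≤ 2 ^ (2 * i * β + c₀ * κ)) →
      #{z ∈ (Λ ×ˢ X ×ˢ X ×ˢ tup (PP β κ) (r - 1)) ×ˢ (Λ ×ˢ X ×ˢ X ×ˢ tup (PP β κ) (r - 1)) |
        psiS (2 ^ ((2 * i + 1) * β)) (z.1.1 * (z.1.2.1 * (z.1.2.2.1 * ∏ j, z.1.2.2.2 j))) =
        psiS (2 ^ ((2 * i + 1) * β)) (z.2.1 * (z.2.2.1 * (z.2.2.2.1 * ∏ j, z.2.2.2.2 j))) ∧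
        ∀ j k, z.1.2.2.2 j ≠ z.2.2.2.2 k} ≤ 2 ^ (i * β + (β + 1) / 2 + C * κ) := by
  classical
  obtain ⟨C₆, hC₆⟩ : ∃ C₆, C₆ = (r - 1) ^ (r - 1) * (r - 1) ^ (r - 1) := ⟨_, rfl⟩
  refine ⟨C₆ + Cq + 2 * c₀ + 6 * r + 2, fun β κ hOk hC Λ X hΛ hX hcΛ a₀ hw => ?_⟩
  have hκ1 := hOk.one
  have hCe : (C₆ + Cq + 2 * c₀ + 6 * r + 2) * κ =
      C₆ * κ + Cq * κ + 2 * (c₀ * κ) + 6 * (r * κ) + 2 * κ := by ring
  have h4r : (4 * r) * κ ≤ β := by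
    have : (4 * r) * κ = 4 * (r * κ) := by ring
    omega
  have hκβ : κ < β := by omega
  have hX' : X ⊆ Sm κ (β / 2 + (c₀ + r + 3) * κ) := by
    intro x hx
    have h1 := hX hx
    unfold Sm at h1 ⊢
    rw [mem_filter, mem_Icc] at h1 ⊢
    refine ⟨⟨h1.1.1, h1.1.2.trans (Nat.pow_le_pow_right (by norm_num) ?_)⟩, h1.2⟩
    have : (c₀ + r + 3) * κ = c₀ * κ + r * κ + 3 * κ := by ring
    rw [this]
    omega
  have hX0 : ∀ x ∈ X, x ≠ 0 := fun x hx => (kd_mem_Sm (hX hx)).1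
  have h1 := hq β κ hOk (by omega) X hX'
  have h2 := low_core (c₀ := c₀) hsr hr hrs hOk h4r hΛ hX0
    ({z ∈ (X ×ˢ X) ×ˢ (X ×ˢ X) | |(psiS (2 ^ ((2 * i + 1) * β)) z.1.1 +
        psiS (2 ^ ((2 * i + 1) * β)) z.1.2) - (psiS (2 ^ ((2 * i + 1) * β)) z.2.1 +
        psiS (2 ^ ((2 * i + 1) * β)) z.2.2)| ≤ 2 ^ (2 * i * β + (c₀ + r + 3) * κ)}) (by
      intro z hz hF
      obtain ⟨z1, z2⟩ := mem_product.1 hz
      obtain ⟨a1, a2⟩ := mem_product.1 z1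
      obtain ⟨a2, a3⟩ := mem_product.1 a2
      obtain ⟨a3, a4⟩ := mem_product.1 a3
      obtain ⟨b1, b2⟩ := mem_product.1 z2
      obtain ⟨b2, b3⟩ := mem_product.1 b2
      obtain ⟨b3, b4⟩ := mem_product.1 b3
      rw [mem_tup] at a4 b4
      rw [mem_filter]
      refine ⟨mem_product.2 ⟨mem_product.2 ⟨a2, a3⟩, mem_product.2 ⟨b2, b3⟩⟩, ?_⟩
      exact kd_close hκ1 hκβ rfl (kd_mem_Sm (hΛ a1)).1 (kd_mem_Sm (hΛ b1)).1 (hX0 _ a2) (hX0 _ a3)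
        (hX0 _ b2) (hX0 _ b3) a4 b4 (hw _ a1) (hw _ b1) hF)
  refine h2.trans ?_
  have h3 : (r - 1) ^ (r - 1) * (r - 1) ^ (r - 1) ≤ 2 ^ (C₆ * κ) := by
    rw [← hC₆]
    refine Nat.lt_two_pow_self.le.trans (Nat.pow_le_pow_right (by norm_num) ?_)
    exact Nat.le_mul_of_pos_right _ (by omega)
  calc _ ≤ 2 ^ (C₆ * κ) * (2 ^ (β + (β + 1) / 2 + Cq * κ) *
        (2 ^ ((s - 1) * β + (β + 1) / 2 + c₀ * κ) *
          2 ^ ((r - 2) * β + (β + 1) / 2 + (c₀ + 2 * r) * κ))) :=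
        Nat.mul_le_mul h3 (Nat.mul_le_mul h1 (Nat.mul_le_mul_right _ hcΛ))
    _ = 2 ^ (C₆ * κ + (β + (β + 1) / 2 + Cq * κ + ((s - 1) * β + (β + 1) / 2 + c₀ * κ +
          ((r - 2) * β + (β + 1) / 2 + (c₀ + 2 * r) * κ)))) := by
        rw [← pow_add, ← pow_add, ← pow_add]
    _ ≤ 2 ^ (i * β + (β + 1) / 2 + (C₆ + Cq + 2 * c₀ + 6 * r + 2) * κ) := by
        apply Nat.pow_le_pow_right (by norm_num)
        obtain ⟨a, rfl⟩ : ∃ a, r = a + 2 := ⟨r - 2, by omega⟩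
        obtain ⟨b, rfl⟩ : ∃ b, s = b + 1 := ⟨s - 1, by omega⟩
        obtain rfl : i = a + b + 2 := by omega
        have e1 : (b + 1 - 1) * β = b * β := by rw [Nat.add_sub_cancel]
        have e2 : (a + 2 - 2) * β = a * β := by rw [Nat.add_sub_cancel]
        have e3 : (a + b + 2) * β = a * β + b * β + 2 * β := by ring
        have e4 : (c₀ + 2 * (a + 2)) * κ = c₀ * κ + 2 * ((a + 2) * κ) := by ring
        rw [e1, e2, e3, e4, hCe]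
        have e5 : 0 ≤ (a + 2) * κ := Nat.zero_le _
        omega

end Pool.Agent.Helper19.P3
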