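import Mathlib
import Pool.Agent.Helper13.P3.Quad
import Pool.Agent.Helper33.P3.LowOf

/-!
# PS4, T1_low
-/

namespace Pool.Agent.Helper19.P3

open Finset Pool.Agent.Helper58.LT

/-- T1, disjoint primes, `r ≤ s + 1` -/
theorem T1_low (i r s c₀ : ℕ) (hsr : s + r = i + 1) (hr : 2 ≤ r) (hs : 2 ≤ s) (hrs : r ≤ s + 1) :
    ∃ C : ℕ, ∀ β κ : ℕ, Ok i β κ → C * κ ≤ β → ∀ Λ X : Finset ℕ,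
      Λ ⊆ Sm κ (s * β + c₀ * κ) → X ⊆ Sm κ (β / 2 + c₀ * κ) →
      #Λ ≤ 2 ^ ((s - 1) * β + (β + 1) / 2 + c₀ * κ) → ∀ a₀ : ℤ,
      (∀ t ∈ Λ, |psiS (2 ^ ((2 * i + 1) * β)) t - a₀| ≤ 2 ^ (2 * i * β + c₀ * κ)) →
      #{z ∈ (Λ ×ˢ X ×ˢ X ×ˢ tup (PP β κ) (r - 1)) ×ˢ (Λ ×ˢ X ×ˢ X ×ˢ tup (PP β κ) (r - 1)) |
        psiS (2 ^ ((2 * i + 1) * β)) (z.1.1 * (z.1.2.1 * (z.1.2.2.1 * ∏ j, z.1.2.2.2 j))) =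
        psiS (2 ^ ((2 * i + 1) * β)) (z.2.1 * (z.2.2.1 * (z.2.2.2.1 * ∏ j, z.2.2.2.2 j))) ∧
        ∀ j k, z.1.2.2.2 j ≠ z.2.2.2.2 k} ≤ 2 ^ (i * β + (β + 1) / 2 + C * κ) := by
  obtain ⟨Cq, hq⟩ := quad_count i (c₀ + r + 3) (by omega)
  exact T1_low_of i r s c₀ Cq hsr hr hs hrs hq

end Pool.Agent.Helper19.P3
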